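import Pool.Agent.W2helper41.M.Fin
import Pool.Agent.W2helper41.X.Par
import Pool.Agent.Y665.XF.Tord

/-!
# The Galois action on the points modulo torsion
-/

set_option autoImplicit false
set_option linter.unusedSectionVars false
set_option linter.unusedVariables false

open NumberField WeierstrassCurve

namespace Pool.Agent.W2helper41.Q

open scoped Classical

open Pool.Agent.Y682.XF (base tors rank IsBasis S_CH)

open Pool.Agent.Y682.XD (RR rank_E)

open Pool.Agent.W97.MT (E14)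

open Pool.Agent.Y686.XF (io io_injective io_io)

open Pool.Agent.W2helper41.M (E14_disc rank_RR)

/-- the group of points is finitely generated -/
lemma fgE (F : Type) [Field F] [NumberField F] :
    Module.Finite ℤ (base E14 F).toAffine.Point := by
  have hD4 : (1 : ℤ) % 4 = 1 := rfl
  have hD0 : ((1 : ℤ) : F) ≠ 0 := by norm_num
  have hfg : Module.Finite ℤ (Pool.Agent.Y665.XF.ED ((1 : ℤ) : F)).toAffine.Point :=
    Pool.Agent.Y682.fg_MP (Pool.Agent.Y665.XF.isT hD0)
  let e := (Pool.Agent.Y665.XF.vr_WM (K := F) hD4).equiv (Pool.Agent.Y665.XF.delta_ne hD4)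
  have hfg2 : Module.Finite ℤ (base (Pool.Agent.Y700.WM 1) F).toAffine.Point :=
    Module.Finite.equiv e.symm.toIntLinearEquiv
  have hW : Pool.Agent.Y700.WM 1 = E14 := by
    unfold Pool.Agent.Y700.WM E14
    norm_num
  rw [hW] at hfg2
  exact hfg2

/-- equal ranks -/
lemma tors_quot {A B : Type} [AddCommGroup A] [AddCommGroup B] [Module.Finite ℤ B] (f : A →+ B)
    (hf : Function.Injective f) (h : Module.finrank ℤ A = Module.finrank ℤ B) (b : B) :
    ∃ n : ℕ, 0 < n ∧ ∃ a : A, n • b = f a := by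
  obtain ⟨N, hN⟩ : ∃ N : Submodule ℤ B, N = LinearMap.range f.toIntLinearMap := ⟨_, rfl⟩
  have h1 : Module.finrank ℤ N = Module.finrank ℤ A := by
    rw [hN]
    exact (LinearEquiv.ofInjective f.toIntLinearMap hf).finrank_eq.symm
  have h2 := Submodule.finrank_quotient_add_finrank N
  have h3 : Module.finrank ℤ (B ⧸ N) = 0 := by omega
  rw [Module.finrank_eq_zero_iff_isTorsion] at h3
  obtain ⟨a, ha⟩ := h3 (x := Submodule.Quotient.mk b)
  have ha0 : (a : ℤ) ≠ 0 := nonZeroDivisors.coe_ne_zero a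
  have h4 : (a : ℤ) • b ∈ N := by
    rw [← Submodule.Quotient.mk_eq_zero, Submodule.Quotient.mk_smul]
    exact ha
  refine ⟨(a : ℤ).natAbs, Int.natAbs_pos.2 ha0, ?_⟩
  have h5 : ((a : ℤ).natAbs : ℤ) • b ∈ N := by
    rcases Int.natAbs_eq (a : ℤ) with h | h
    · rw [← h]; exact h4
    · have h6 : ((a : ℤ).natAbs : ℤ) = -(a : ℤ) := by omega
      rw [h6, neg_smul]
      exact N.neg_mem h4
  rw [hN] at h5
  obtain ⟨x, hx⟩ := h5
  exact ⟨x, by rw [← natCast_zsmul]; exact hx.symm⟩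

/-- **the squares act trivially modulo torsion** -/
theorem sq_act {F₀ F G : Type} [Field F₀] [NumberField F₀] [Field F] [NumberField F] [Field G]
    [NumberField G] [IsGalois ℚ F] [IsGalois ℚ G] (i₀ : F₀ →+* G) (i : F →+* G)
    (hsq : ∀ g : G ≃ₐ[ℚ] G, ∀ x : F₀, g (g (i₀ x)) = i₀ x)
    (hr : RR G 1 = RR F₀ 1) (g : F ≃ₐ[ℚ] F) (P : (base E14 F).toAffine.Point) :
    ∃ n : ℕ, 0 < n ∧ n • (io E14 ((g * g : F ≃ₐ[ℚ] F) : F →+* F) P - P) = 0 := by
  have hfgG := fgE G
  let _ : Algebra F G := i.toAlgebra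
  have _ : IsScalarTower ℚ F G := IsScalarTower.of_algebraMap_eq fun x => by
    show _ = i (algebraMap ℚ F x)
    rw [eq_ratCast, eq_ratCast, map_ratCast]
  obtain ⟨g', hg'⟩ := AlgEquiv.restrictNormalHom_surjective (F := ℚ) (K₁ := F) (E := G) g
  have hg'' : g'.restrictNormal F = g := hg'
  have hcomm : ∀ x : F, g' (i x) = i (g x) := by
    intro x
    have h1 := AlgEquiv.restrictNormal_commutes g' F x
    rw [hg''] at h1
    exact h1.symm
  have hrk : Module.finrank ℤ (base E14 F₀).toAffine.Point =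
      Module.finrank ℤ (base E14 G).toAffine.Point := by
    have h1 : rank G E14 = rank F₀ E14 := by rw [rank_RR, rank_RR, hr]
    exact h1.symm
  obtain ⟨n, hn, Q, hQ⟩ := tors_quot (io E14 i₀) (io_injective E14 _) hrk (io E14 i P)
  refine ⟨n, hn, io_injective E14 i ?_⟩
  have h1 : io E14 ((g' * g' : G ≃ₐ[ℚ] G) : G →+* G) (io E14 i₀ Q) = io E14 i₀ Q := by
    have h3 : ((g' * g' : G ≃ₐ[ℚ] G) : G →+* G).comp i₀ = i₀ := RingHom.ext fun x => hsq g' x
    rw [io_io, h3]
  have h2 : io E14 ((g' * g' : G ≃ₐ[ℚ] G) : G →+* G) (io E14 i P) =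
      io E14 i (io E14 ((g * g : F ≃ₐ[ℚ] F) : F →+* F) P) := by
    have h3 : ((g' * g' : G ≃ₐ[ℚ] G) : G →+* G).comp i =
        i.comp ((g * g : F ≃ₐ[ℚ] F) : F →+* F) := RingHom.ext fun x => by
      show g' (g' (i x)) = i (g (g x))
      rw [hcomm, hcomm]
    rw [io_io, io_io, h3]
  rw [map_zero, map_nsmul, map_sub, smul_sub, ← h2, ← map_nsmul, hQ, h1, sub_self]

end Pool.Agent.W2helper41.Q
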