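import Pool.Agent.W2helper41.Q.Alg

/-!
# The eigenspaces of the points
-/

set_option autoImplicit false
set_option linter.unusedSectionVars false
set_option linter.unusedVariables false

open NumberField WeierstrassCurve TensorProduct

namespace Pool.Agent.W2helper41.Q

open scoped Classical

open Pool.Agent.Y682.XF (base tors rank IsBasis S_CH)

open Pool.Agent.W97.MT (E14)

open Pool.Agent.Y686.XF (io io_injective io_io)

/-- torsion elements vanish in the complex vector space -/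
lemma tmul_tors {A : Type} [AddCommGroup A] {a : A} {n : ℕ} (hn : 0 < n) (h : n • a = 0) (z : ℂ) :
    z ⊗ₜ[ℤ] a = 0 := by
  have hn0 : (n : ℂ) ≠ 0 := Nat.cast_ne_zero.2 hn.ne'
  have h2 : z = (n : ℤ) • ((n : ℂ)⁻¹ * z) := by
    rw [zsmul_eq_mul, Int.cast_natCast, mul_inv_cancel_left₀ hn0]
  rw [h2, TensorProduct.smul_tmul, natCast_zsmul, h, TensorProduct.tmul_zero]

/-- a torsion group vanishes in the complex vector space -/
lemma tens_zero {A : Type} [AddCommGroup A] (h : ∀ a : A, ∃ n : ℕ, 0 < n ∧ n • a = 0)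
    (x : ℂ ⊗[ℤ] A) : x = 0 := by
  induction x using TensorProduct.induction_on with
  | zero => rfl
  | add x y hx hy => rw [hx, hy, add_zero]
  | tmul z a =>
    obtain ⟨n, hn, ha⟩ := h a
    exact tmul_tors hn ha z

/-- the vector space is zero if the rank is zero -/
lemma space_zero (hC : S_CH) {F : Type} [Field F] [NumberField F] (h0 : rank F E14 = 0)
    (x : ℂ ⊗[ℤ] (base E14 F).toAffine.Point) : x = 0 :=
  tens_zero (fun P => Pool.Agent.W2helper41.M.tors_of_rank hC F
    Pool.Agent.W2helper41.M.E14_disc h0 P) x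

/-- the action on the complex vector space -/
noncomputable def actS (F : Type) [Field F] (σ : F →+* F) :
    (ℂ ⊗[ℤ] (base E14 F).toAffine.Point) →ₗ[ℂ] (ℂ ⊗[ℤ] (base E14 F).toAffine.Point) :=
  LinearMap.baseChange ℂ (io E14 σ).toIntLinearMap

/-- **the eigenspaces are trivial** -/
theorem eig_zero {F : Type} [Field F] [NumberField F] (χ : (F ≃ₐ[ℚ] F) →* ℂˣ) (hχ : χ ^ 2 ≠ 1)
    (hsq : ∀ (g : F ≃ₐ[ℚ] F) (P : (base E14 F).toAffine.Point),
      ∃ n : ℕ, 0 < n ∧ n • (io E14 ((g * g : F ≃ₐ[ℚ] F) : F →+* F) P - P) = 0)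
    (x : ℂ ⊗[ℤ] (base E14 F).toAffine.Point)
    (hx : ∀ σ : F ≃ₐ[ℚ] F, actS F (σ : F →+* F) x = ((χ σ : ℂˣ) : ℂ) • x) : x = 0 := by
  obtain ⟨g, hg⟩ : ∃ g, χ g * χ g ≠ 1 := by
    by_contra h
    push Not at h
    apply hχ
    refine MonoidHom.ext fun g => ?_
    rw [MonoidHom.pow_apply, pow_two]
    exact h g
  have h0 : ∀ y : ℂ ⊗[ℤ] (base E14 F).toAffine.Point,
      actS F ((g * g : F ≃ₐ[ℚ] F) : F →+* F) y = y := by
    intro y
    induction y using TensorProduct.induction_on with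
    | zero => rw [map_zero]
    | add x y ihx ihy => rw [map_add, ihx, ihy]
    | tmul z P =>
      obtain ⟨n, hn, h⟩ := hsq g P
      have h1 := tmul_tors hn h z
      rw [TensorProduct.tmul_sub, sub_eq_zero] at h1
      exact h1
  have h1 := h0 x
  rw [hx, map_mul] at h1
  have h2 : (((χ g * χ g : ℂˣ) : ℂ) - 1) • x = 0 := by
    rw [sub_smul, one_smul, h1, sub_self]
  rcases smul_eq_zero.1 h2 with h3 | h3
  · exfalso
    apply hg
    apply Units.ext
    rw [Units.val_one]
    exact sub_eq_zero.1 h3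
  · exact h3

end Pool.Agent.W2helper41.Q
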