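import Pool.Agent.W2helper41.Q.Loc

/-!
# Embeddings in a cyclotomic field
-/

set_option autoImplicit false
set_option linter.unusedSectionVars false
set_option linter.unusedVariables false

open NumberField IsCyclotomicExtension.Rat

namespace Pool.Agent.W2helper41.Q

/-- a subfield of the image of `L` -/
lemma emb_of {L : Type} [Field L] [NumberField L] (φ : L →ₐ[ℚ] ℂ) (F : IntermediateField ℚ ℂ)
    (h : F ≤ φ.fieldRange) : ∃ i : F →ₐ[ℚ] L, ∀ x : F, φ (i x) = x := by
  refine ⟨φ.equivFieldRange.symm.toAlgHom.comp (IntermediateField.inclusion h), ?_⟩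
  intro x
  have h1 := φ.equivFieldRange.apply_symm_apply (IntermediateField.inclusion h x)
  have h2 := congrArg (fun y : φ.fieldRange => (y : ℂ)) h1
  exact h2

/-- the subfields are abelian -/
lemma gal_of (n : ℕ) [NeZero n] {L : Type} [Field L] [NumberField L]
    [IsCyclotomicExtension {n} ℚ L] {F : Type} [Field F] [NumberField F] (i : F →ₐ[ℚ] L) :
    IsGalois ℚ F ∧ ∀ g h : F ≃ₐ[ℚ] F, g * h = h * g := by
  have hab : IsAbelianGalois ℚ L := IsCyclotomicExtension.isAbelianGalois {n} ℚ L
  have h1 : IsAbelianGalois ℚ F := IsAbelianGalois.of_algHom i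
  exact ⟨h1.toIsGalois, fun g h => h1.toIsMulCommutative.is_comm.comm g h⟩

end Pool.Agent.W2helper41.Q
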