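import Mathlib

/-!
# The inertia groups of an extension and of a quotient
-/

set_option autoImplicit false
set_option linter.unusedSectionVars false

open NumberField IsDedekindDomain
open scoped Pointwise

namespace Pool.Agent.W2helper41.Q

section

variable {F L : Type} [Field F] [NumberField F] [Field L] [NumberField L] [Algebra F L]
  [IsGalois ℚ L] [IsGalois ℚ F]

/-- the restriction on the rings of integers -/
lemma res_alg (σ : L ≃ₐ[ℚ] L) (y : 𝓞 F) :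
    σ • (algebraMap (𝓞 F) (𝓞 L) y) = algebraMap (𝓞 F) (𝓞 L) ((σ.restrictNormal F) • y) := by
  apply RingOfIntegers.ext
  have h1 := AlgEquiv.restrictNormal_commutes σ F (y : F)
  exact h1.symm

/-- the action of an automorphism over `F` -/
lemma up_smul (g : L ≃ₐ[F] L) (x : 𝓞 L) : (g.restrictScalars ℚ) • x = g • x := rfl

/-- the restriction of an automorphism over `F` -/
lemma up_res (g : L ≃ₐ[F] L) : (g.restrictScalars ℚ).restrictNormal F = 1 := by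
  apply AlgEquiv.ext
  intro x
  apply (algebraMap F L).injective
  rw [AlgEquiv.restrictNormal_commutes]
  show g (algebraMap F L x) = algebraMap F L x
  exact g.commutes x

/-- **the inertia group of the extension maps onto the inertia group** -/
theorem exists_inertia (P : Ideal (𝓞 L)) [P.IsMaximal] (hP : P ≠ ⊥) (τ : F ≃ₐ[ℚ] F)
    (hτ : ∀ x : 𝓞 F, algebraMap (𝓞 F) (𝓞 L) (τ • x - x) ∈ P) :
    ∃ σ : L ≃ₐ[ℚ] L, σ.restrictNormal F = τ ∧ ∀ x : 𝓞 L, σ • x - x ∈ P := by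
  have hgal : IsGalois F L := IsGalois.tower_top_of_isGalois ℚ F L
  obtain ⟨σ₀, hσ₀⟩ := AlgEquiv.restrictNormalHom_surjective (F := ℚ) (K₁ := F) (E := L) τ
  have hσ₀' : σ₀.restrictNormal F = τ := hσ₀
  -- the prime `σ₀ P`
  have hPp : P.IsPrime := inferInstance
  have hprime : (σ₀ • P).IsPrime := Ideal.IsPrime.smul σ₀
  have hun : (σ₀ • P).under (𝓞 F) = P.under (𝓞 F) := by
    have key : ∀ x : 𝓞 F, algebraMap (𝓞 F) (𝓞 L) (τ • x) ∈ P ↔ algebraMap (𝓞 F) (𝓞 L) x ∈ P := by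
      intro x
      have h1 := hτ x
      rw [map_sub] at h1
      constructor
      · intro h
        have h2 := P.sub_mem h h1
        rwa [sub_sub_cancel] at h2
      · intro h
        have h2 := P.add_mem h1 h
        rwa [sub_add_cancel] at h2
    ext x
    rw [Ideal.under_def, Ideal.under_def, Ideal.mem_comap, Ideal.mem_comap]
    obtain ⟨y, rfl⟩ : ∃ y, τ • y = x := ⟨τ⁻¹ • x, smul_inv_smul τ x⟩
    rw [key y]
    have h2 : algebraMap (𝓞 F) (𝓞 L) (τ • y) = σ₀ • algebraMap (𝓞 F) (𝓞 L) y := by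
      rw [res_alg, hσ₀']
    rw [h2]
    exact Ideal.smul_mem_pointwise_smul_iff
  obtain ⟨g, hg⟩ := Algebra.IsInvariant.exists_smul_of_under_eq (𝓞 F) (𝓞 L) (L ≃ₐ[F] L)
    (σ₀ • P) P hun
  -- the automorphism that fixes `P`
  obtain ⟨σ₁, hσ₁⟩ : ∃ σ₁ : L ≃ₐ[ℚ] L, σ₁ = (g.restrictScalars ℚ) * σ₀ := ⟨_, rfl⟩
  have hres : σ₁.restrictNormal F = τ := by
    rw [← hσ₀']
    apply AlgEquiv.ext
    intro x
    apply (algebraMap F L).injective
    rw [AlgEquiv.restrictNormal_commutes, hσ₁]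
    show g (σ₀ (algebraMap F L x)) = _
    rw [← AlgEquiv.restrictNormal_commutes, g.commutes]
  have hfix : ∀ x : 𝓞 L, σ₁ • x ∈ P ↔ x ∈ P := by
    intro x
    have h1 : σ₁ • x = g • (σ₀ • x) := by
      rw [hσ₁, mul_smul]
      rfl
    rw [h1]
    constructor
    · intro h
      rw [hg] at h
      exact Ideal.smul_mem_pointwise_smul_iff.1 (Ideal.smul_mem_pointwise_smul_iff.1 h)
    · intro h
      rw [hg]
      exact Ideal.smul_mem_pointwise_smul_iff.2 (Ideal.smul_mem_pointwise_smul_iff.2 h)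
  have hmap : P = P.map (MulSemiringAction.toRingEquiv (L ≃ₐ[ℚ] L) (𝓞 L) σ₁ : 𝓞 L →+* 𝓞 L) := by
    apply le_antisymm
    · intro x hx
      have h1 : σ₁⁻¹ • x ∈ P := by
        rw [← hfix, smul_inv_smul]
        exact hx
      have h2 := Ideal.mem_map_of_mem
        (MulSemiringAction.toRingEquiv (L ≃ₐ[ℚ] L) (𝓞 L) σ₁ : 𝓞 L →+* 𝓞 L) h1
      have h3 : (MulSemiringAction.toRingEquiv (L ≃ₐ[ℚ] L) (𝓞 L) σ₁ : 𝓞 L →+* 𝓞 L) (σ₁⁻¹ • x) = x :=
        smul_inv_smul σ₁ x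
      rwa [h3] at h2
    · rw [Ideal.map_le_iff_le_comap]
      intro x hx
      exact (hfix x).2 hx
  obtain ⟨w, hw⟩ : ∃ w : Ideal (𝓞 F), w = P.under (𝓞 F) := ⟨_, rfl⟩
  have hlo : P.LiesOver w := ⟨hw⟩
  let e0 : (𝓞 L ⧸ P) ≃+* (𝓞 L ⧸ P) := Ideal.quotientEquiv P P
    (MulSemiringAction.toRingEquiv (L ≃ₐ[ℚ] L) (𝓞 L) σ₁) hmap
  have he0 : ∀ x : 𝓞 L, e0 (Ideal.Quotient.mk P x) = Ideal.Quotient.mk P (σ₁ • x) := fun x => rfl
  let l : (𝓞 L ⧸ P) ≃ₐ[𝓞 F ⧸ w] (𝓞 L ⧸ P) := AlgEquiv.ofRingEquiv (f := e0) (by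
    intro r
    obtain ⟨y, rfl⟩ := Ideal.Quotient.mk_surjective r
    have h1 : algebraMap (𝓞 F ⧸ w) (𝓞 L ⧸ P) (Ideal.Quotient.mk w y) =
      Ideal.Quotient.mk P (algebraMap (𝓞 F) (𝓞 L) y) := rfl
    rw [h1, he0, res_alg, hres, Ideal.Quotient.eq, ← map_sub]
    exact hτ y)
  obtain ⟨s, hs⟩ := Ideal.Quotient.stabilizerHom_surjective (L ≃ₐ[F] L) w P l
  refine ⟨(s.1.restrictScalars ℚ)⁻¹ * σ₁, ?_, ?_⟩
  · have h1 : ∀ a b : L ≃ₐ[ℚ] L, (a * b).restrictNormal F = a.restrictNormal F * b.restrictNormal F :=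
      fun a b => map_mul (AlgEquiv.restrictNormalHom (F := ℚ) (K₁ := L) F) a b
    have h2 : ∀ a : L ≃ₐ[ℚ] L, (a⁻¹).restrictNormal F = (a.restrictNormal F)⁻¹ :=
      fun a => map_inv (AlgEquiv.restrictNormalHom (F := ℚ) (K₁ := L) F) a
    rw [h1, h2, up_res, hres, inv_one, one_mul]
  · intro x
    have h1 : s.1 • x - σ₁ • x ∈ P := by
      rw [← Ideal.Quotient.eq]
      have h2 := DFunLike.congr_fun hs (Ideal.Quotient.mk P x)
      have h3 : l (Ideal.Quotient.mk P x) = Ideal.Quotient.mk P (σ₁ • x) := rfl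
      rw [h3] at h2
      rw [← h2]
      rfl
    have hs1 : s.1 • P = P := s.2
    have h2 : ((s.1.restrictScalars ℚ)⁻¹ * σ₁) • x - x = - (s.1⁻¹ • (s.1 • x - σ₁ • x)) := by
      rw [smul_sub, inv_smul_smul, neg_sub, mul_smul]
      rfl
    rw [h2]
    refine P.neg_mem ?_
    have h3 : s.1⁻¹ ∈ MulAction.stabilizer (L ≃ₐ[F] L) P :=
      (MulAction.stabilizer (L ≃ₐ[F] L) P).inv_mem s.2
    have h4 : s.1⁻¹ • P = P := h3
    have h5 : s.1⁻¹ • (s.1 • x - σ₁ • x) ∈ s.1⁻¹ • P := Ideal.smul_mem_pointwise_smul_iff.2 h1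
    rw [h4] at h5
    exact h5

end

end Pool.Agent.W2helper41.Q
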