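import Pool.Agent.W2helper41.Q.Ins

/-!
# The values of the characters of an abelian field at the primes
-/

set_option autoImplicit false
set_option linter.unusedSectionVars false
set_option linter.unusedVariables false

open NumberField IsDedekindDomain IsCyclotomicExtension.Rat
open scoped Pointwise

namespace Pool.Agent.W2helper41.Q

section

variable (F : Type) [Field F] [NumberField F]

/-- `σ` is in the inertia group of a prime of `F` above `p` -/
def InInertia (p : ℕ) (σ : F ≃ₐ[ℚ] F) : Prop :=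
  ∃ w : HeightOneSpectrum (𝓞 F), ((p : ℕ) : 𝓞 F) ∈ w.asIdeal ∧ ∀ x : 𝓞 F, σ • x - x ∈ w.asIdeal

/-- `σ` is a Frobenius element of a prime of `F` above `p` -/
def IsFrobenius (p : ℕ) (σ : F ≃ₐ[ℚ] F) : Prop :=
  ∃ w : HeightOneSpectrum (𝓞 F), ((p : ℕ) : 𝓞 F) ∈ w.asIdeal ∧
    ∀ x : 𝓞 F, σ • x - x ^ p ∈ w.asIdeal

variable {F}

/-- the character is ramified at `p` -/
def Ramified (χ : (F ≃ₐ[ℚ] F) →* ℂˣ) (p : ℕ) : Prop :=
  ∃ σ : F ≃ₐ[ℚ] F, InInertia F p σ ∧ χ σ ≠ 1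

/-- `c` is the value of `χ` at `p` -/
def IsValue (χ : (F ≃ₐ[ℚ] F) →* ℂˣ) (p : ℕ) (c : ℂ) : Prop :=
  (Ramified χ p → c = 0) ∧ (¬ Ramified χ p → ∃ σ : F ≃ₐ[ℚ] F, IsFrobenius F p σ ∧ c = χ σ)

end

section

variable {n : ℕ} [NeZero n] {L : Type} [Field L] [NumberField L] [IsCyclotomicExtension {n} ℚ L]

/-- the root of unity -/
noncomputable def zt (n : ℕ) [NeZero n] (L : Type) [Field L] [NumberField L]
    [IsCyclotomicExtension {n} ℚ L] : 𝓞 L :=
  (IsCyclotomicExtension.zeta_spec n ℚ L).toInteger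

lemma zt_prim : IsPrimitiveRoot (zt n L) n :=
  (IsCyclotomicExtension.zeta_spec n ℚ L).toInteger_isPrimitiveRoot

lemma smul_zt (σ : L ≃ₐ[ℚ] L) : σ • zt n L = zt n L ^ ((galEquivZMod n L σ : ZMod n)).val :=
  galEquivZMod_smul_of_pow_eq n L σ zt_prim.pow_eq_one

section

variable {p n' a : ℕ} (hp : p.Prime) (hn : n = p ^ a * n') (P : Ideal (𝓞 L)) [P.IsPrime]
  (hpP : ((p : ℕ) : 𝓞 L) ∈ P)

include hp hn hpP

/-- the reduction of the root of unity -/
lemma mk_zt_pow : (Ideal.Quotient.mk P (zt n L)) ^ n' = 1 := by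
  have hch : CharP (𝓞 L ⧸ P) p := (CharP.charP_iff_prime_eq_zero hp).2 (by
    have h1 : Ideal.Quotient.mk P ((p : ℕ) : 𝓞 L) = 0 := Ideal.Quotient.eq_zero_iff_mem.2 hpP
    rwa [map_natCast] at h1)
  have hfp : Fact p.Prime := ⟨hp⟩
  have h1 : (Ideal.Quotient.mk P (zt n L)) ^ n = 1 := by
    rw [← map_pow, zt_prim.pow_eq_one, map_one]
  have h2 : ((Ideal.Quotient.mk P (zt n L)) ^ n' - 1) ^ p ^ a = 0 := by
    rw [sub_pow_char_pow, one_pow, ← pow_mul, mul_comm n', ← hn, h1, sub_self]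
  exact sub_eq_zero.1 ((pow_eq_zero_iff (pow_ne_zero _ hp.ne_zero)).1 h2)

/-- **the elements that act as powers of the Frobenius automorphism** -/
theorem frob_of (j : ℕ) (σ : L ≃ₐ[ℚ] L)
    (hσ : ((galEquivZMod n L σ : ZMod n)).val ≡ p ^ j [MOD n']) (x : 𝓞 L) :
    σ • x - x ^ p ^ j ∈ P := by
  have hch : CharP (𝓞 L ⧸ P) p := (CharP.charP_iff_prime_eq_zero hp).2 (by
    have h1 : Ideal.Quotient.mk P ((p : ℕ) : 𝓞 L) = 0 := Ideal.Quotient.eq_zero_iff_mem.2 hpP
    rwa [map_natCast] at h1)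
  have hfp : Fact p.Prime := ⟨hp⟩
  have hz := mk_zt_pow hp hn P hpP
  let f₁ : 𝓞 L →ₐ[ℤ] 𝓞 L ⧸ P := ((Ideal.Quotient.mk P).comp
    (MulSemiringAction.toRingEquiv (L ≃ₐ[ℚ] L) (𝓞 L) σ : 𝓞 L →+* 𝓞 L)).toIntAlgHom
  let f₂ : 𝓞 L →ₐ[ℤ] 𝓞 L ⧸ P := ((iterateFrobenius (𝓞 L ⧸ P) p j).comp
    (Ideal.Quotient.mk P)).toIntAlgHom
  have h12 : f₁ = f₂ := by
    refine AlgHom.ext_of_adjoin_eq_top
      (adjoin_singleton_eq_top (IsCyclotomicExtension.zeta_spec n ℚ L)) ?_
    intro y hy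
    rw [Set.mem_singleton_iff] at hy
    subst hy
    show Ideal.Quotient.mk P (σ • zt n L) = iterateFrobenius (𝓞 L ⧸ P) p j
      (Ideal.Quotient.mk P (zt n L))
    rw [smul_zt, iterateFrobenius_def, map_pow]
    exact pow_eq_pow_of_modEq hσ hz
  have h3 := DFunLike.congr_fun h12 x
  have h4 : Ideal.Quotient.mk P (σ • x) = Ideal.Quotient.mk P (x ^ p ^ j) := by
    rw [map_pow, ← iterateFrobenius_def]
    exact h3
  exact Ideal.Quotient.eq.1 h4

/-- the inertia group -/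
theorem one_of_inertia (hn' : ¬ p ∣ n') (σ : L ≃ₐ[ℚ] L) (hσ : ∀ x : 𝓞 L, σ • x - x ∈ P) :
    ((galEquivZMod n L σ : ZMod n)).val ≡ 1 [MOD n'] := by
  have hn0 : n ≠ 0 := NeZero.ne n
  have hn'0 : n' ≠ 0 := by
    rintro rfl
    exact hn0 (by rw [hn, mul_zero])
  have : NeZero n' := ⟨hn'0⟩
  have h1 : IsPrimitiveRoot (zt n L ^ p ^ a) n' := zt_prim.pow (NeZero.pos n) hn
  have h2 : P ≠ ⊤ := Ideal.IsPrime.ne_top inferInstance
  have h3 : Ideal.absNorm P ≠ 1 := fun h => h2 (Ideal.absNorm_eq_one_iff.1 h)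
  have h4 : (Ideal.absNorm P).Coprime n' := by
    have h5 : Ideal.absNorm P ∣ Ideal.absNorm (Ideal.span {((p : ℕ) : 𝓞 L)}) :=
      Ideal.absNorm_dvd_absNorm_of_le ((Ideal.span_singleton_le_iff_mem P).2 hpP)
    rw [Ideal.absNorm_span_natCast] at h5
    exact Nat.Coprime.coprime_dvd_left h5
      (Nat.Coprime.pow_left _ ((Nat.Prime.coprime_iff_not_dvd hp).2 hn'))
  have h5 := h1.idealQuotient_mk h3 h4
  have h6 : Ideal.Quotient.mk P (zt n L ^ p ^ a) ^ ((galEquivZMod n L σ : ZMod n)).val =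
      Ideal.Quotient.mk P (zt n L ^ p ^ a) ^ 1 := by
    rw [pow_one, ← map_pow, ← pow_mul, mul_comm, pow_mul, ← smul_zt, ← smul_pow']
    exact Ideal.Quotient.eq.2 (hσ _)
  rw [(h5.isOfFinOrder (NeZero.ne _)).pow_inj_mod, ← h5.eq_orderOf] at h6
  exact h6

end

section

variable {F : Type} [Field F] [NumberField F] [Algebra F L] [IsGalois ℚ F]

/-- the Dirichlet character of a character of the Galois group of a subfield -/
noncomputable def XC (n : ℕ) [NeZero n] (L : Type) [Field L] [NumberField L]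
    [IsCyclotomicExtension {n} ℚ L] {F : Type} [Field F] [NumberField F] [Algebra F L]
    [IsGalois ℚ F] (χ : (F ≃ₐ[ℚ] F) →* ℂˣ) : DirichletCharacter ℂ n :=
  MulChar.ofUnitHom ((χ.comp (AlgEquiv.restrictNormalHom (F := ℚ) (K₁ := L) F)).comp
    (galEquivZMod n L).symm.toMonoidHom)

lemma XC_apply (χ : (F ≃ₐ[ℚ] F) →* ℂˣ) (σ : L ≃ₐ[ℚ] L) :
    XC n L χ (galEquivZMod n L σ : ZMod n) = χ (σ.restrictNormal F) := by
  unfold XC
  rw [MulChar.ofUnitHom_coe]
  show ((χ (((galEquivZMod n L).symm (galEquivZMod n L σ)).restrictNormal F) : ℂˣ) : ℂ) = _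
  rw [MulEquiv.symm_apply_apply]

lemma XC_apply' (χ : (F ≃ₐ[ℚ] F) →* ℂˣ) (u : (ZMod n)ˣ) :
    XC n L χ (u : ZMod n) = χ (((galEquivZMod n L).symm u).restrictNormal F) := by
  have h := XC_apply (n := n) (L := L) χ ((galEquivZMod n L).symm u)
  rwa [MulEquiv.apply_symm_apply] at h

/-- primes above -/
lemma exists_above {p : ℕ} (hp : p.Prime) (M : Type) [Field M] [NumberField M] :
    ∃ P : Ideal (𝓞 M), P.IsMaximal ∧ P ≠ ⊥ ∧ ((p : ℕ) : 𝓞 M) ∈ P := by
  have h1 : Ideal.span {((p : ℕ) : 𝓞 M)} ≠ ⊤ := by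
    intro h
    rw [← Ideal.absNorm_eq_one_iff, Ideal.absNorm_span_natCast, RingOfIntegers.rank] at h
    have h2 : 0 < Module.finrank ℚ M := Module.finrank_pos
    have h3 := Nat.one_lt_pow h2.ne' hp.one_lt
    omega
  obtain ⟨P, hP, hle⟩ := Ideal.exists_le_maximal _ h1
  have h2 : ((p : ℕ) : 𝓞 M) ∈ P := hle (Ideal.mem_span_singleton_self _)
  refine ⟨P, hP, ?_, h2⟩
  rintro rfl
  rw [Ideal.mem_bot] at h2
  exact hp.ne_zero (by exact_mod_cast h2)

/-- **the values of the primitive Dirichlet character** -/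
theorem isValue (χ : (F ≃ₐ[ℚ] F) →* ℂˣ) {p : ℕ} (hp : p.Prime) :
    IsValue χ p ((XC n L χ).primitiveCharacter (p : ZMod (XC n L χ).conductor)) := by
  obtain ⟨a, n', hn', hn⟩ := Nat.exists_eq_pow_mul_and_not_dvd (NeZero.ne n) p hp.ne_one
  have hnn : n' ∣ n := by rw [hn]; exact dvd_mul_left _ _
  have hgal : IsGalois ℚ L := IsCyclotomicExtension.isGalois {n} ℚ L
  obtain ⟨X, hX⟩ : ∃ X : DirichletCharacter ℂ n, X = XC n L χ := ⟨_, rfl⟩
  rw [← hX]
  have hXv : ∀ σ : L ≃ₐ[ℚ] L, X (galEquivZMod n L σ : ZMod n) = χ (σ.restrictNormal F) := by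
    intro σ
    rw [hX]
    exact XC_apply χ σ
  have hlev : DirichletCharacter.changeLevel X.conductor_dvd_level X.primitiveCharacter = X :=
    X.changeLevel_primitiveCharacter
  -- the value at a unit
  have hval : ∀ (u : (ZMod n)ˣ), X (u : ZMod n) =
      X.primitiveCharacter (((u : ZMod n).val : ℕ) : ZMod X.conductor) := by
    intro u
    conv_lhs => rw [← hlev]
    rw [DirichletCharacter.changeLevel_eq_cast_of_dvd]
    congr 1
    rw [ZMod.natCast_val]
  constructor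
  · rintro ⟨τ, ⟨w, hw, hτ⟩, hne⟩
    by_contra h0
    -- the conductor is prime to `p`
    have hu : IsUnit ((p : ℕ) : ZMod X.conductor) := by
      by_contra hu
      exact h0 (X.primitiveCharacter.map_nonunit hu)
    have hpc : p.Coprime X.conductor := (ZMod.isUnit_iff_coprime p X.conductor).1 hu
    have hcn : X.conductor ∣ n' := by
      have h1 : X.conductor ∣ p ^ a * n' := X.conductor_dvd_level.trans (dvd_of_eq hn)
      exact (Nat.Coprime.pow_right a hpc.symm).dvd_of_dvd_mul_left h1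
    -- a prime above `w`
    have hwm : w.asIdeal.IsMaximal := w.isMaximal
    obtain ⟨P, hPm, hPo⟩ := Ideal.exists_maximal_ideal_liesOver_of_isIntegral (S := 𝓞 L) w.asIdeal
    have hmem : ∀ x : 𝓞 F, x ∈ w.asIdeal → algebraMap (𝓞 F) (𝓞 L) x ∈ P := by
      intro x hx
      rw [hPo.over] at hx
      exact hx
    have hpP : ((p : ℕ) : 𝓞 L) ∈ P := by
      have := hmem _ hw
      rwa [map_natCast] at this
    have hP0 : P ≠ ⊥ := by
      rintro rfl
      rw [Ideal.mem_bot] at hpP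
      exact hp.ne_zero (by exact_mod_cast hpP)
    obtain ⟨σ, hσ, hσi⟩ := exists_inertia P hP0 τ (fun x => hmem _ (hτ x))
    have h1 := one_of_inertia hp hn P hpP hn' σ hσi
    apply hne
    apply Units.ext
    rw [← hσ, ← hXv, hval, (ZMod.natCast_eq_natCast_iff _ 1 _).2 (h1.of_dvd hcn), Nat.cast_one,
      map_one, Units.val_one]
  · intro hr
    obtain ⟨P, hPm, hP0, hpP⟩ := exists_above hp L
    -- the prime below
    obtain ⟨w, hw⟩ : ∃ w : HeightOneSpectrum (𝓞 F), w.asIdeal = P.comap (algebraMap (𝓞 F) (𝓞 L)) := by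
      refine ⟨⟨P.comap (algebraMap (𝓞 F) (𝓞 L)), Ideal.comap_isPrime _ _, ?_⟩, rfl⟩
      intro h
      have h1 : ((p : ℕ) : 𝓞 F) ∈ P.comap (algebraMap (𝓞 F) (𝓞 L)) := by
        rw [Ideal.mem_comap, map_natCast]
        exact hpP
      rw [h, Ideal.mem_bot] at h1
      exact hp.ne_zero (by exact_mod_cast h1)
    have hpw : ((p : ℕ) : 𝓞 F) ∈ w.asIdeal := by
      rw [hw, Ideal.mem_comap, map_natCast]
      exact hpP
    -- the character is trivial on the kernel
    have hker : ∀ u : (ZMod n)ˣ, ZMod.unitsMap hnn u = 1 → X (u : ZMod n) = 1 := by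
      intro u hu
      obtain ⟨σ, hσ⟩ : ∃ σ : L ≃ₐ[ℚ] L, galEquivZMod n L σ = u :=
        ⟨_, MulEquiv.apply_symm_apply _ u⟩
      have h1 : ((galEquivZMod n L σ : ZMod n)).val ≡ p ^ 0 [MOD n'] := by
        rw [hσ, pow_zero, ← ZMod.natCast_eq_natCast_iff, ZMod.natCast_val, Nat.cast_one]
        have h2 := congrArg (fun v : (ZMod n')ˣ => (v : ZMod n')) hu
        simpa [ZMod.unitsMap_val] using h2
      have h2 := frob_of hp hn P hpP 0 σ h1
      have h3 : χ (σ.restrictNormal F) = 1 := by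
        by_contra h4
        apply hr
        refine ⟨σ.restrictNormal F, ⟨w, hpw, fun x => ?_⟩, h4⟩
        rw [hw, Ideal.mem_comap, map_sub, ← res_alg]
        have h5 := h2 (algebraMap (𝓞 F) (𝓞 L) x)
        rwa [pow_zero, pow_one] at h5
      rw [← hσ, hXv, h3, Units.val_one]
    have hfac : X.FactorsThrough n' := by
      rw [DirichletCharacter.factorsThrough_iff_ker_unitsMap hnn]
      intro u hu
      rw [MonoidHom.mem_ker] at hu ⊢
      apply Units.ext
      rw [MulChar.coe_toUnitHom, Units.val_one]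
      exact hker u hu
    have hcn : X.conductor ∣ n' := (X.mem_conductorSet_iff_conductor_dvd hnn).1 hfac
    -- the Frobenius element
    have hcop : p.Coprime n' := (Nat.Prime.coprime_iff_not_dvd hp).2 hn'
    obtain ⟨u, hu⟩ := ZMod.unitsMap_surjective hnn (ZMod.unitOfCoprime p hcop)
    obtain ⟨σ, hσ⟩ : ∃ σ : L ≃ₐ[ℚ] L, galEquivZMod n L σ = u := ⟨_, MulEquiv.apply_symm_apply _ u⟩
    have h1 : ((galEquivZMod n L σ : ZMod n)).val ≡ p ^ 1 [MOD n'] := by
      rw [hσ, pow_one, ← ZMod.natCast_eq_natCast_iff, ZMod.natCast_val]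
      have h2 := congrArg (fun v : (ZMod n')ˣ => (v : ZMod n')) hu
      simpa [ZMod.unitsMap_val] using h2
    refine ⟨σ.restrictNormal F, ⟨w, hpw, fun x => ?_⟩, ?_⟩
    · rw [hw, Ideal.mem_comap, map_sub, map_pow, ← res_alg]
      have h5 := frob_of hp hn P hpP 1 σ h1 (algebraMap (𝓞 F) (𝓞 L) x)
      rwa [pow_one] at h5
    · rw [← hXv, hval]
      congr 1
      rw [ZMod.natCast_eq_natCast_iff]
      rw [pow_one] at h1
      exact (h1.of_dvd hcn).symm

/-- the character group of the field -/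
theorem XC_fix (χ : (F ≃ₐ[ℚ] F) →* ℂˣ) (σ : L ≃ₐ[ℚ] L)
    (hσ : ∀ x : F, σ (algebraMap F L x) = algebraMap F L x) :
    XC n L χ (galEquivZMod n L σ : ZMod n) = 1 := by
  rw [XC_apply]
  have h1 : σ.restrictNormal F = 1 := by
    apply AlgEquiv.ext
    intro x
    apply (algebraMap F L).injective
    rw [AlgEquiv.restrictNormal_commutes, hσ]
    rfl
  rw [h1, map_one, Units.val_one]

end

end

end Pool.Agent.W2helper41.Q
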