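import Pool.Agent.W2helper41.M.Anm

/-!
# The characters of order greater than two
-/

set_option autoImplicit false
set_option linter.unusedSectionVars false
set_option linter.unusedVariables false

open Finset NumberField IsCyclotomicExtension.Rat H300.HW
open scoped symmDiff

namespace Pool.Agent.W2helper41.Q

open scoped Classical

open Pool.Agent.W97.MT (ap E14 II)

open Pool.Agent.Y687 (Symb Symb2)

open Pool.Agent.Y682.XT hiding unitsMap_neg

open Pool.Agent.Y682.XD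

open Pool.Agent.Y682.XF hiding core2 prod_D val_D Parts main

open Pool.Agent.W2helper41.L

open Pool.Agent.W2helper41.M

open Pool.Agent.Y18.BSD (dd disc dd_odd dd_sqfree dd_dvd)

section

variable {q : ℕ} [NeZero q] {L₁ : Type} [Field L₁] [NumberField L₁] [IsCyclotomicExtension {q} ℚ L₁]
  {K₁ : IntermediateField ℚ L₁} {m : ℕ} [NeZero (q * m)] {L : Type} [Field L] [NumberField L]
  [IsCyclotomicExtension {q * m} ℚ L]

/-- the nonvanishing for the characters of order greater than two -/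
theorem nv_psi (H : Parts) (H' : Pool.Agent.Y682.XF.Parts) {s t : ℚ → ℤ} {Op Om : ℝ}
    (hS : Sy s t Op Om) (hK : HypK s (fun l => ap E14 l) q L₁ K₁) (S0 : Finset ℕ)
    (hS0 : ∀ p ∈ S0, DP q L₁ K₁ p) (hm : m = ∏ p ∈ S0, p) (ι : L₁ →ₐ[ℚ] L)
    (F₁ : IntermediateField ℚ L) (hF : ∀ σ : Gal(L/ℚ), ∀ x ∈ F₁, σ (σ x) = x)
    (hF2 : F₁ ≤ IntermediateField.adjoin ℚ {z : L | ∃ T ⊆ S0, z ^ 2 = ((disc T : ℤ) : L)})
    (χ : DirichletCharacter ℂ (q * m)) (hχ : χ ∈ YY (q * m) L (F₁ ⊔ K₁.map ι))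
    (hχ2 : χ ^ 2 ≠ 1) {x g : ℂ}
    (hG : haveI : NeZero χ.conductor := ⟨χ.conductor_ne_zero⟩
      g * x = ∑ u : (ZMod χ.conductor)ˣ, (χ.primitiveCharacter)⁻¹ (u : ZMod χ.conductor) *
          II (((u : ZMod χ.conductor).val : ℚ) / χ.conductor)) : x ≠ 0 := by
  have hrk : Module.finrank ℚ (K₁.map ι) = Module.finrank ℚ K₁ :=
    (IntermediateField.equivMap K₁ ι).toLinearEquiv.finrank_eq.symm
  obtain ⟨h1, h2, h3⟩ := H.dec (q * m) L F₁ (K₁.map ι) hF (by rw [hrk]; exact hK.hodd) χ hχ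
  rw [hrk] at h1 h2 h3
  obtain ⟨h, hh⟩ : ∃ h, h = Module.finrank ℚ K₁ := ⟨_, rfl⟩
  rw [← hh] at h1 h2 h3
  obtain ⟨ψ, hψY, hψ⟩ := (H.cl q (q * m) (dvd_mul_right q m) L₁ L ι K₁ (χ ^ (h + 1))).1 h3
  by_cases hψ1 : ψ = 1
  · subst hψ1
    rw [map_one] at hψ
    have h4 : χ = (χ ^ h)⁻¹ := by
      rw [eq_inv_iff_mul_eq_one, ← pow_succ', hψ]
    exfalso
    apply hχ2
    rw [h4, inv_pow, ← pow_mul, mul_comm h 2, h1, inv_one]
  · obtain ⟨ψ', rfl⟩ := cf_surj hψY
    have hne : ψ' ≠ 1 := fun h4 => hψ1 (by rw [h4]; exact cf_one)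
    have hp2 : ∀ p ∈ S0, p.Prime ∧ p ≠ 2 := fun p hp => ⟨(hS0 p hp).1, by
      rintro rfl
      have := (hS0 2 hp).2.2.1
      omega⟩
    have hddm : dd S0 = m := by
      unfold dd
      exact hm.symm
    have hn : dd S0 ∣ q * m := by
      rw [hddm]
      exact dvd_mul_left _ _
    obtain ⟨T, hTS, -, hT⟩ := Pool.Agent.Y18.NF.YY_sub (q * m) L {T : Finset ℕ | T ⊆ S0} S0 hp2 hn
      (Finset.empty_subset _) (fun S hS T hT => by
        intro q hq
        rcases Finset.mem_symmDiff.1 hq with h | h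
        · exact hS h.1
        · exact hT h.1) F₁ (by
        refine hF2.trans (IntermediateField.adjoin.mono ℚ _ _ ?_)
        rintro z ⟨T, hT, hz⟩
        exact ⟨T, hT, hT, hz⟩) h2
    have hTS' : T ⊆ S0 := hTS
    have hTp : ∀ p ∈ T, p.Prime ∧ p ≠ 2 := fun p hp => hp2 p (hTS' hp)
    obtain ⟨d, hd⟩ : ∃ d, d = dd T := ⟨_, rfl⟩
    have hdsq : Squarefree d := by
      rw [hd]; exact dd_sqfree fun q hq => (hTp q hq).1
    have hd0 : d ≠ 0 := hdsq.ne_zero
    have hdm' : d ∣ m := by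
      rw [hd, ← hddm]
      exact dd_dvd hTS'
    have hdm : q * d ∣ q * m := mul_dvd_mul_left q hdm'
    have hz1 : NeZero d := ⟨hd0⟩
    have hz2 : NeZero (q * d) := ⟨Nat.mul_ne_zero (NeZero.ne q) hd0⟩
    have hddT : d = ∏ p ∈ T, p := by rw [hd]; rfl
    have hd4 : d % 4 = 1 := by
      rw [hddT]
      exact prod_mod4 fun p hp => (hS0 p (hTS' hp)).2.2.1
    have hDD : DD q L₁ K₁ (fun l => ap E14 l) d := by
      intro p hp hpd
      rw [hddT] at hpd
      have hpT : p ∈ T := Pool.Agent.Y687.dvd_prod_primes (fun p hp => (hTp p hp).1) hp hpd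
      exact (hS0 p (hTS' hpT)).2
    obtain ⟨δ, hδp, -, hδ1, hδj⟩ := H'.kd (d : ℤ) (Int.squarefree_natCast.2 hdsq) (by omega) d
      (Int.natAbs_natCast d).symm
    have hdpos : (0 : ℤ) < (d : ℤ) := by omega
    rw [if_pos hdpos] at hδ1
    obtain ⟨ψJ, hψJ, hψj⟩ := H385.jac_char d (by
      rw [hd]; exact dd_odd hTp) hdsq
    have hδψ : δ = ψJ := by
      apply MulChar.ext
      intro u
      have h5 := hψj (u : ZMod d).val
      rw [ZMod.natCast_val, ZMod.cast_id', id] at h5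
      rw [hδj, h5]
    have hdN : d ∣ q * m := hdm'.trans (dvd_mul_left _ _)
    have hχh : χ ^ h = DirichletCharacter.changeLevel hdN δ := by
      rw [hδψ]
      apply MulChar.ext
      intro u
      rw [hT u, DirichletCharacter.changeLevel_eq_cast_of_dvd]
      have := hψj (u : ZMod (q * m)).val
      rw [ZMod.natCast_val] at this
      rw [this, hd]
      rfl
    have hχe : χ = DirichletCharacter.changeLevel hdm (XX δ (cf q L₁ K₁ ψ')) := by
      have h5 : χ = χ ^ (h + 1) * χ ^ h := by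
        rw [← pow_add, show h + 1 + h = 2 * h + 1 by ring, pow_succ, h1, one_mul]
      have h6 : DirichletCharacter.changeLevel hdm (XX δ (cf q L₁ K₁ ψ')) =
          DirichletCharacter.changeLevel (dvd_mul_right q m) (cf q L₁ K₁ ψ') *
            DirichletCharacter.changeLevel hdN δ := by
        unfold XX
        rw [map_mul, ← DirichletCharacter.changeLevel_trans, ← DirichletCharacter.changeLevel_trans]
      rw [h6, ← hψ, ← hχh]
      exact h5
    exact nv_T H.hecke H'.prim hS hK hdm hdsq hDD hδp hδ1 hδj ψ' hne hχe hG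

end

end Pool.Agent.W2helper41.Q
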