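import Pool.Agent.W2helper41.Q.Emb
import Pool.Agent.W2helper41.Q.Psi
import Pool.Agent.W2helper41.Q.Eig

/-!
# The equivariant statements for the subfields of the composites
-/

set_option autoImplicit false
set_option linter.unusedSectionVars false
set_option linter.unusedVariables false

open Finset NumberField IsCyclotomicExtension.Rat H300.HW IsDedekindDomain TensorProduct

namespace Pool.Agent.W2helper41.Q

open scoped Classical

open Pool.Agent.Y687 (Symb Symb2)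

open Pool.Agent.Y682 (NCl)

open Pool.Agent.Y682.XT Pool.Agent.Y682.XD

open Pool.Agent.W97.MT (ap E14 II)

open Pool.Agent.W2helper41.X (Ine)

open Pool.Agent.W2helper41.Y (RegZ base_ne' rank_zero')

open Pool.Agent.W2helper41.L (Cnd)

open Pool.Agent.W2helper41.M

open Pool.Agent.Y682.XF (base)

open Pool.Agent.Y686.XF (io io_injective io_io)

/-- the local factor for the value `c` of the character -/
noncomputable def fac (p : ℕ) (c s : ℂ) : ℂ :=
  (1 - (ap E14 p : ℂ) * c * (p : ℂ) ^ (-s) +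
    (if p ∣ 14 then 0 else (p : ℂ)) * c ^ 2 * (p : ℂ) ^ (-2 * s))⁻¹

/-- the statements for the field `F` -/
def Con (F : Type) [Field F] [NumberField F] (R : Prop) : Prop :=
  (IsGalois ℚ F ∧ ∀ g h : F ≃ₐ[ℚ] F, g * h = h * g) ∧
  (∃ (n : ℕ) (_ : NeZero n) (π : (ZMod n)ˣ →* (F ≃ₐ[ℚ] F)), Function.Surjective π) ∧
  ∀ χ : (F ≃ₐ[ℚ] F) →* ℂˣ,
    (∃ G : ℂ → ℂ, Differentiable ℂ G ∧ (∃ c : Nat.Primes → ℂ, (∀ p : Nat.Primes, IsValue χ p (c p)) ∧
      ∀ s : ℂ, 3 / 2 < s.re → HasProd (fun p : Nat.Primes => fac p (c p) s) (G s)) ∧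
      (χ ^ 2 ≠ 1 ∨ R → G 1 ≠ 0)) ∧
    (χ ^ 2 ≠ 1 ∨ R → ∀ x : ℂ ⊗[ℤ] (base E14 F).toAffine.Point,
      (∀ σ : F ≃ₐ[ℚ] F, actS F (σ : F →+* F) x = ((χ σ : ℂˣ) : ℂ) • x) → x = 0)

/-- the main theorem -/
theorem mainQ (H : Parts) (H' : Pool.Agent.Y682.XF.Parts) (q : ℕ) [NeZero q] (hq : IsPrimePow q)
    (hco : q.Coprime 14) (K : IntermediateField ℚ ℂ) [NumberField K]
    (hK : K ≤ IntermediateField.adjoin ℚ {z : ℂ | z ^ q = 1}) (hodd : Odd (Module.finrank ℚ K))
    (hcl : 3 ∣ q ∨ ((Ideal.span {((2 : ℕ) : 𝓞 K)}).IsPrime ∧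
      (Ideal.span {((7 : ℕ) : 𝓞 K)}).IsPrime ∧ Odd (Nat.card (NCl K))))
    (S : Finset ℤ) (hpos : ∀ d ∈ S, 0 < d) (hS : HypM q K S)
    (F : IntermediateField ℚ ℂ) [NumberField F] (hF : F ≤ mq S ⊔ K) :
    Con F (∀ A ⊆ S, RegZ (∏ d ∈ A, d)) := by
  -- the primes
  obtain ⟨S0, hS0⟩ : ∃ S0 : Finset ℕ, S0 = S.biUnion fun d => d.natAbs.primeFactors := ⟨_, rfl⟩
  have hmemS0 : ∀ p : ℕ, p ∈ S0 ↔ ∃ d ∈ S, p.Prime ∧ (p : ℤ) ∣ d := by
    intro p
    rw [hS0, mem_biUnion]
    constructor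
    · rintro ⟨d, hd, hp⟩
      exact ⟨d, hd, Nat.prime_of_mem_primeFactors hp,
        Int.natCast_dvd.2 (Nat.dvd_of_mem_primeFactors hp)⟩
    · rintro ⟨d, hd, hp, hpd⟩
      refine ⟨d, hd, Nat.mem_primeFactors.2 ⟨hp, Int.natCast_dvd.1 hpd, ?_⟩⟩
      intro h0
      have h1 := (hS d hd).2.1
      rw [Int.natAbs_eq_zero.1 h0] at h1
      omega
  have hsubS0 : ∀ d ∈ S, d.natAbs.primeFactors ⊆ S0 := by
    intro d hd
    rw [hS0]
    exact subset_biUnion_of_mem (fun d => d.natAbs.primeFactors) hd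
  have hS0p : ∀ p ∈ S0, p.Prime := fun p hp => by
    obtain ⟨d, -, h1, -⟩ := (hmemS0 p).1 hp
    exact h1
  obtain ⟨m, hm⟩ : ∃ m : ℕ, m = ∏ p ∈ S0, p := ⟨_, rfl⟩
  have hm0 : m ≠ 0 := by
    rw [hm]
    exact prod_ne_zero_iff.2 fun p hp => (hS0p p hp).ne_zero
  have hnz : NeZero (q * m) := ⟨Nat.mul_ne_zero (NeZero.ne q) hm0⟩
  have hP14 : ∀ p ∈ S0, ¬ p ∣ 14 ∧ ¬ p ∣ q ∧ p % 4 = 1 ∧
      (Ine p ∨ (Ideal.span {((p : ℕ) : 𝓞 K)}).IsPrime) := by
    intro p hp
    obtain ⟨d, hd, h3, h4⟩ := (hmemS0 p).1 hp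
    exact (hS d hd).2.2 p h3 h4
  have hS0N : ∀ p ∈ S0, p ∣ q * m := by
    intro p hp
    rw [hm]
    exact dvd_mul_of_dvd_right (dvd_prod_of_mem _ hp) _
  -- divisors
  have hdivN : ∀ T : Finset ℕ, T ⊆ S0 → (∏ p ∈ T, p) ∣ q * m := by
    intro T hT
    exact Finset.prod_primes_dvd _ (fun p hp => (hS0p p (hT hp)).prime) fun p hp => hS0N p (hT hp)
  have hdS : ∀ d ∈ S, d ∣ ((q * m : ℕ) : ℤ) ∧ d % 4 = 1 ∧ Squarefree d := by
    intro d hd
    obtain ⟨h1, h2, -⟩ := hS d hd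
    refine ⟨?_, h2, h1⟩
    rw [← Int.natAbs_dvd, Int.natCast_dvd_natCast]
    rw [← Nat.prod_primeFactors_of_squarefree (Int.squarefree_natAbs.2 h1)]
    exact hdivN _ (hsubS0 d hd)
  -- the cyclotomic fields
  let L₁ := CyclotomicField q ℚ
  let L := CyclotomicField (q * m) ℚ
  have hc1 : IsCyclotomicExtension {q} ℚ L₁ := CyclotomicField.isCyclotomicExtension q ℚ
  have hc : IsCyclotomicExtension {q * m} ℚ L := CyclotomicField.isCyclotomicExtension (q * m) ℚ
  obtain ⟨φ, ι, K₁, F₁, hK₁, hF₁, hF₁2⟩ := embz q (q * m) (dvd_mul_right q m) L₁ L K (mq S) hK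
    (S : Set ℤ) hdS rfl
  -- the isomorphisms
  let eK : K ≃+* K₁ := ((IntermediateField.equivMap K₁ (φ.comp ι)).trans
    (IntermediateField.equivOfEq hK₁)).symm.toRingEquiv
  have hrk : Module.finrank ℚ K₁ = Module.finrank ℚ K :=
    ((IntermediateField.equivMap K₁ (φ.comp ι)).trans
      (IntermediateField.equivOfEq hK₁)).toLinearEquiv.finrank_eq
  have hodd1 : Odd (Module.finrank ℚ K₁) := by rw [hrk]; exact hodd
  have hFmap : (F₁ ⊔ K₁.map ι : IntermediateField ℚ L).map φ = mq S ⊔ K := by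
    rw [IntermediateField.map_sup, IntermediateField.map_map, hF₁, hK₁]
  -- the field `F`
  obtain ⟨F', hF', hF'2⟩ : ∃ F' : IntermediateField ℚ L, F' ≤ F₁ ⊔ K₁.map ι ∧ F'.map φ = F := by
    refine ⟨F.comap φ, ?_, ?_⟩
    · intro x hx
      have h1 : φ x ∈ (F₁ ⊔ K₁.map ι : IntermediateField ℚ L).map φ := by
        rw [hFmap]
        exact hF hx
      obtain ⟨y, hy, hyx⟩ := h1
      have h2 : y = x := φ.toRingHom.injective hyx
      rw [← h2]
      exact hy
    · apply le_antisymm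
      · rintro _ ⟨y, hy, rfl⟩
        exact hy
      · intro z hz
        have h1 : z ∈ (F₁ ⊔ K₁.map ι : IntermediateField ℚ L).map φ := by
          rw [hFmap]
          exact hF hz
        obtain ⟨y, -, hyx⟩ := h1
        exact ⟨y, by
          show φ y ∈ F
          have h3 : φ y = z := hyx
          rw [h3]
          exact hz, hyx⟩
  let eF : F' ≃+* F :=
    ((IntermediateField.equivMap _ φ).trans (IntermediateField.equivOfEq hF'2)).toRingEquiv
  -- the field `K₁`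
  obtain ⟨h2, h7, hN⟩ : (Ideal.span {((2 : ℕ) : 𝓞 K₁)}).IsPrime ∧
      (Ideal.span {((7 : ℕ) : 𝓞 K₁)}).IsPrime ∧ Odd (Nat.card (NCl K₁)) := by
    rcases hcl with h3 | ⟨h2, h7, hN⟩
    · obtain ⟨n, hn⟩ : ∃ n, q = 3 ^ (n + 1) := by
        obtain ⟨l, k, hl, hk, rfl⟩ := hq
        have hl' := hl.nat_prime
        have h4 : l = 3 := ((Nat.prime_dvd_prime_iff_eq Nat.prime_three hl').1
          (Nat.prime_three.dvd_of_dvd_pow h3)).symm
        subst h4
        exact ⟨k - 1, by rw [Nat.sub_add_cancel hk]⟩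
      have key : ∀ (q' : ℕ) [NeZero q'] (M : Type) [Field M] [NumberField M]
          [IsCyclotomicExtension {q'} ℚ M] (n : ℕ), q' = 3 ^ (n + 1) →
          ∀ (K' : IntermediateField ℚ M), Odd (Module.finrank ℚ K') →
          (Ideal.span {((2 : ℕ) : 𝓞 K')}).IsPrime ∧
          (Ideal.span {((7 : ℕ) : 𝓞 K')}).IsPrime ∧ Odd (Nat.card (NCl K')) := by
        intro q' _ M _ _ _ n hn K' hodd'
        subst hn
        exact three_hyp n M K' hodd'
      exact key q L₁ n hn K₁ hodd1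
    · exact ⟨prime_tr eK 2 h2, prime_tr eK 7 h7, H.nclt K K₁ eK hN⟩
  obtain ⟨s, t, Op, Om, hSy⟩ := exists_sy
  have hypK : HypK s (fun l => ap E14 l) q L₁ K₁ :=
    hypK_of H.apev hSy hq hco hodd1 h2 h7 hN
  have hDP : ∀ p ∈ S0, DP q L₁ K₁ p := by
    intro p hp
    obtain ⟨h3, h4, h5, h6⟩ := hP14 p hp
    refine ⟨hS0p p hp, ?_, h5, ?_⟩
    · intro h7
      rcases ((hS0p p hp).dvd_mul).1 h7 with h7 | h7
      · exact h3 h7
      · exact h4 h7
    · rcases h6 with h6 | h6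
      · exact Or.inl (Pool.Agent.Y687.II_facts p h6.1 h6.2.1 h6.2.2).2.2.2
      · exact Or.inr fun t ht => gen_of_prime (K := K₁) (L := L₁) Pool.Agent.Y692.XT.inert
          (hS0p p hp) ht (prime_tr eK p h6)
  -- the square roots
  have hF₁S : F₁ ≤ IntermediateField.adjoin ℚ {z : L | ∃ d ∈ S, z ^ 2 = (d : L)} := by
    intro x hx
    have h4 : φ x ∈ mq S := by
      rw [← hF₁]
      exact ⟨x, hx, rfl⟩
    set ZL : Set L := {z : L | ∃ d ∈ S, z ^ 2 = (d : L)} with hZL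
    have h3 : mq S ≤ (IntermediateField.adjoin ℚ ZL).map φ := by
      unfold mq
      rw [IntermediateField.adjoin_le_iff]
      rintro z ⟨d, hd, hz⟩
      obtain ⟨h4, h5, h6⟩ := hdS d hd
      obtain ⟨g, hg⟩ := sqrt_memZ (q * m) L d h4 h5 h6
      have hgZ : g ∈ ZL := ⟨d, hd, hg⟩
      have h10 : (φ g) ^ 2 = (d : ℂ) := by rw [← map_pow, hg, map_intCast]
      rcases sq_eq_sq_iff_eq_or_eq_neg.1 (hz.trans h10.symm) with h | h
      · exact ⟨g, IntermediateField.subset_adjoin ℚ _ hgZ, h.symm⟩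
      · exact ⟨-g, (IntermediateField.adjoin ℚ ZL).neg_mem (IntermediateField.subset_adjoin ℚ _ hgZ), by
          show φ (-g) = z
          rw [map_neg, h]⟩
    obtain ⟨y, hy, hyx⟩ := h3 h4
    have h5 : y = x := φ.toRingHom.injective hyx
    rw [← h5]
    exact hy
  have hF₁D : F₁ ≤ IntermediateField.adjoin ℚ
      {z : L | ∃ T ⊆ S0, z ^ 2 = ((Pool.Agent.Y18.BSD.disc T : ℤ) : L)} := by
    refine hF₁S.trans (IntermediateField.adjoin.mono ℚ _ _ ?_)
    rintro z ⟨d, hd, hz⟩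
    obtain ⟨n, hdn⟩ : ∃ n : ℕ, d = (n : ℤ) := ⟨d.toNat, (Int.toNat_of_nonneg (hpos d hd).le).symm⟩
    have hnS : n.primeFactors ⊆ S0 := by
      have := hsubS0 d hd
      rwa [hdn, Int.natAbs_natCast] at this
    have hnsq : Squarefree n := by
      have := (hS d hd).1
      rwa [hdn, Int.squarefree_natCast] at this
    refine ⟨n.primeFactors, hnS, ?_⟩
    rw [hz, Pool.Agent.W2helper41.Y.disc_eq,
      Nat.prod_primeFactors_of_squarefree hnsq, hdn]
    intro p hp
    exact (hP14 p (hnS hp)).2.2.1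
  -- the compositum
  have hOne : ∀ d ∈ S, Odd d ∧ Cnd q K₁ d := by
    intro d hd
    obtain ⟨h3, h4, h5⟩ := hS d hd
    refine ⟨Int.odd_iff.2 (by omega), fun p hp hpd => ?_⟩
    obtain ⟨-, h6, -, h8⟩ := h5 p hp hpd
    exact ⟨h6, h8.imp_right fun h => prime_tr eK p h⟩
  have hreal : ∀ w : InfinitePlace K₁, w.IsReal := by
    obtain ⟨φ', -⟩ := exists_phi q L₁
    exact real_place (φ := φ') hypK.hre
  have hrs := rank_stableM (q := q) (K₁ := K₁) H.qf H.deg2 H.sup H.rke K eK hreal hN hodd1 hodd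
    h2 h7 S hOne
  have hfd := hrs.1.1
  have hn0 : NumberField (mq S) := { to_charZero := inferInstance, to_finiteDimensional := hfd }
  have hGf : FiniteDimensional ℚ (mq S ⊔ K : IntermediateField ℚ ℂ) :=
    IntermediateField.finiteDimensional_sup _ _
  have hGn : NumberField (mq S ⊔ K : IntermediateField ℚ ℂ) :=
    { to_charZero := inferInstance, to_finiteDimensional := hGf }
  have hr1 := hrs.2 (mq S) (mq S ⊔ K) rfl rfl 1 odd_one Cnd_one
  have hrange : mq S ⊔ K ≤ φ.fieldRange := by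
    rw [← hFmap]
    rintro _ ⟨y, -, rfl⟩
    exact ⟨y, rfl⟩
  obtain ⟨iF, hiF⟩ := emb_of φ F (hF.trans hrange)
  obtain ⟨iG, hiG⟩ := emb_of φ (mq S ⊔ K) hrange
  have hgalF := gal_of (q * m) iF
  have hgalG := gal_of (q * m) iG
  have hgF : IsGalois ℚ F := hgalF.1
  have hgG : IsGalois ℚ (mq S ⊔ K : IntermediateField ℚ ℂ) := hgalG.1
  have hgL : IsGalois ℚ L := IsCyclotomicExtension.isGalois {q * m} ℚ L
  refine ⟨hgalF, ?_, fun χ => ⟨?_, ?_⟩⟩
  · let algFL : Algebra F L := iF.toRingHom.toAlgebra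
    have htow : IsScalarTower ℚ F L := IsScalarTower.of_algebraMap_eq fun x => (iF.commutes x).symm
    refine ⟨q * m, hnz, (AlgEquiv.restrictNormalHom (F := ℚ) (K₁ := L) F).comp
      (galEquivZMod (q * m) L).symm.toMonoidHom, ?_⟩
    intro g
    obtain ⟨σ, hσ⟩ := AlgEquiv.restrictNormalHom_surjective (F := ℚ) (K₁ := F) (E := L) g
    refine ⟨galEquivZMod (q * m) L σ, ?_⟩
    show (AlgEquiv.restrictNormalHom (F := ℚ) (K₁ := L) F)
      ((galEquivZMod (q * m) L).symm (galEquivZMod (q * m) L σ)) = g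
    rw [MulEquiv.symm_apply_apply]
    exact hσ
  · -- the analytic side
    let algFL : Algebra F L := iF.toRingHom.toAlgebra
    have htow : IsScalarTower ℚ F L := IsScalarTower.of_algebraMap_eq fun x => (iF.commutes x).symm
    obtain ⟨X, hX⟩ : ∃ X : DirichletCharacter ℂ (q * m), X = XC (q * m) L χ := ⟨_, rfl⟩
    have hXY : X ∈ YY (q * m) L (F₁ ⊔ K₁.map ι) := by
      rw [mem_YY]
      intro σ hσ
      rw [hX]
      refine XC_fix χ σ fun x => ?_
      rw [IntermediateField.mem_fixingSubgroup_iff] at hσ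
      refine hσ _ ?_
      have h3 : φ (iF x) ∈ (F₁ ⊔ K₁.map ι : IntermediateField ℚ L).map φ := by
        rw [hFmap, hiF]
        exact hF x.2
      obtain ⟨y, hy, hyx⟩ := h3
      have h4 : y = iF x := φ.toRingHom.injective hyx
      show iF x ∈ _
      rw [← h4]
      exact hy
    have hX2 : χ ^ 2 ≠ 1 → X ^ 2 ≠ 1 := by
      intro hχ h3
      apply hχ
      refine MonoidHom.ext fun g => ?_
      obtain ⟨σ, hσ⟩ := AlgEquiv.restrictNormalHom_surjective (F := ℚ) (K₁ := F) (E := L) g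
      have hσ' : σ.restrictNormal F = g := hσ
      have h4 := XC_apply (n := q * m) (L := L) χ σ
      rw [hσ', ← hX] at h4
      have h5 : (X ^ 2) ((galEquivZMod (q * m) L σ : (ZMod (q * m))ˣ) : ZMod (q * m)) = 1 := by
        rw [h3, MulChar.one_apply_coe]
      rw [MulChar.pow_apply_coe, h4] at h5
      apply Units.ext
      rw [MonoidHom.pow_apply, Units.val_pow_eq_pow_val]
      exact h5
    have hco2 : (q * m).Coprime 14 := by
      refine Nat.Coprime.mul_left hypK.hco ?_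
      rw [hm]
      refine Nat.Coprime.prod_left fun p hp => ?_
      rw [Nat.Prime.coprime_iff_not_dvd (hDP p hp).1]
      exact fun h => (hDP p hp).2.1 (dvd_mul_of_dvd_left h _)
    obtain ⟨G, hG⟩ := exists_GG hco2
    refine ⟨G X, (hG X).1, ⟨fun p => X.primitiveCharacter ((p : ℕ) : ZMod X.conductor), ?_, ?_⟩, ?_⟩
    · intro p
      rw [hX]
      exact isValue χ p.2
    · intro z hz
      exact (hG X).2.1 z hz
    · rintro (h3 | h3)
      · exact nv_psi H H' hSy hypK S0 hDP hm ι F₁ hF₁2 hF₁D X hXY (hX2 h3) (hG X).2.2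
      · exact nv_all H H' hSy hypK S0 hDP hm ι F₁ hF₁2 hF₁D
          (fun χ hχ => base_ne' hSy.pos hSy.H hSy.re F₁ S S0 (fun d hd => (hS d hd).1)
            (fun p hp => (hmemS0 p).1 hp) hsubS0 h3 (hdivN S0 (Finset.Subset.refl _)) hF₁S χ hχ)
          X hXY (hG X).2.2
  · -- the algebraic side
    intro hor x hx
    by_cases hχ : χ ^ 2 ≠ 1
    · refine eig_zero χ hχ ?_ x hx
      intro g P
      refine sq_act (IntermediateField.inclusion le_sup_left : mq S →ₐ[ℚ] _).toRingHom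
        (IntermediateField.inclusion hF).toRingHom ?_ hr1 g P
      intro g' y
      let algGL : Algebra (mq S ⊔ K : IntermediateField ℚ ℂ) L := iG.toRingHom.toAlgebra
      have htow : IsScalarTower ℚ (mq S ⊔ K : IntermediateField ℚ ℂ) L :=
        IsScalarTower.of_algebraMap_eq fun x => (iG.commutes x).symm
      obtain ⟨σ, hσ⟩ := AlgEquiv.restrictNormalHom_surjective (F := ℚ)
        (K₁ := (mq S ⊔ K : IntermediateField ℚ ℂ)) (E := L) g'
      have hσ' : σ.restrictNormal (mq S ⊔ K : IntermediateField ℚ ℂ) = g' := hσ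
      have hcm : ∀ x : (mq S ⊔ K : IntermediateField ℚ ℂ), σ (iG x) = iG (g' x) := by
        intro x
        have h3 := AlgEquiv.restrictNormal_commutes σ (mq S ⊔ K : IntermediateField ℚ ℂ) x
        rw [hσ'] at h3
        exact h3.symm
      apply iG.toRingHom.injective
      show iG (g' (g' _)) = iG _
      rw [← hcm, ← hcm]
      refine hF₁2 σ _ ?_
      have h3 : φ (iG ((IntermediateField.inclusion le_sup_left : mq S →ₐ[ℚ] _) y)) ∈ F₁.map φ := by
        rw [hF₁, hiG]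
        exact y.2
      obtain ⟨z, hz, hzy⟩ := h3
      have h4 : z = iG ((IntermediateField.inclusion le_sup_left : mq S →ₐ[ℚ] _) y) :=
        φ.toRingHom.injective hzy
      show iG ((IntermediateField.inclusion le_sup_left : mq S →ₐ[ℚ] _) y) ∈ F₁
      rw [← h4]
      exact hz
    · have hR := hor.resolve_left hχ
      have hr0 : RR (mq S) 1 = 0 := by
        refine (rank_zero' H.qf H.deg2 H.rke H.sq S fun d hd => (hS d hd).1.ne_zero).2 (mq S) rfl 1
          one_ne_zero fun A hA' => ?_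
        rw [one_mul]
        exact hR A hA'
      have hrF : Pool.Agent.Y682.XF.rank F E14 = 0 := by
        refine rank_sub H'.ch (IntermediateField.inclusion hF).toRingHom E14_disc ?_
        rw [rank_RR, hr1, hr0]
      exact space_zero H'.ch hrF x

end Pool.Agent.W2helper41.Q
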