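import Pool.Agent.W2helper41.Q.Mn
import Pool.Agent.W2helper41.M.Omg

/-!
# The number fields in an infinite extension
-/

set_option autoImplicit false
set_option linter.unusedSectionVars false
set_option linter.unusedVariables false

open Finset NumberField

namespace Pool.Agent.W2helper41.Q

open scoped Classical

open Pool.Agent.W2helper41.X (Spl Ine mat)

open Pool.Agent.W2helper41.Y (Reg RegZ reg_inert)

open Pool.Agent.Y682.XD (mq RR)

open Pool.Agent.W2helper41.M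

/-- the field generated by the square roots of the elements of a class and the layers -/
noncomputable def OmC (C : ℕ → Prop) : IntermediateField ℚ ℂ :=
  IntermediateField.adjoin ℚ ({z : ℂ | ∃ q : ℕ, C q ∧ z ^ 2 = (q : ℂ)} ∪
    {z : ℂ | ∃ (n : ℕ) (ζ : ℂ), ζ ^ 3 ^ n = 1 ∧ z = ζ + ζ⁻¹})

/-- the elements -/
theorem mem_OmC {C : ℕ → Prop} {x : ℂ} (hx : x ∈ OmC C) :
    ∃ (A : Finset ℕ) (n : ℕ), (∀ q ∈ A, C q) ∧ x ∈ mqN A ⊔ Lay (n + 1) := by
  unfold OmC at hx
  have comb : ∀ (A B : Finset ℕ) (m n : ℕ) (y : ℂ), y ∈ mqN A ⊔ Lay (m + 1) →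
      y ∈ mqN (A ∪ B) ⊔ Lay (max m n + 1) := by
    intro A B m n y hy
    exact sup_le_sup (mqN_mono subset_union_left)
      (Lay_mono (Nat.succ_le_succ (le_max_left m n))) hy
  have comb' : ∀ (A B : Finset ℕ) (m n : ℕ) (y : ℂ), y ∈ mqN B ⊔ Lay (n + 1) →
      y ∈ mqN (A ∪ B) ⊔ Lay (max m n + 1) := by
    intro A B m n y hy
    exact sup_le_sup (mqN_mono subset_union_right)
      (Lay_mono (Nat.succ_le_succ (le_max_right m n))) hy
  have hun : ∀ (A B : Finset ℕ), (∀ q ∈ A, C q) → (∀ q ∈ B, C q) → ∀ q ∈ A ∪ B, C q := by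
    intro A B hA hB q hq
    rcases mem_union.1 hq with h | h
    · exact hA q h
    · exact hB q h
  induction hx using IntermediateField.adjoin_induction with
  | mem z hz =>
    rcases hz with ⟨q, hq, hz⟩ | ⟨n, ζ, h1, hz⟩
    · refine ⟨{q}, 0, ?_, ?_⟩
      · intro r hr
        rw [mem_singleton.1 hr]
        exact hq
      · refine (le_sup_left : mqN {q} ≤ _) ?_
        exact IntermediateField.subset_adjoin ℚ _ ⟨q, by simp, hz⟩
    · refine ⟨∅, n, by simp, ?_⟩
      refine (le_sup_right : Lay (n + 1) ≤ _) (Lay_mono (Nat.le_succ n) ?_)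
      exact IntermediateField.subset_adjoin ℚ _ ⟨ζ, h1, hz⟩
  | algebraMap x => exact ⟨∅, 0, by simp, IntermediateField.algebraMap_mem _ x⟩
  | add x y _ _ ihx ihy =>
    obtain ⟨A, m, hA, h1⟩ := ihx
    obtain ⟨B, n, hB, h2⟩ := ihy
    exact ⟨A ∪ B, max m n, hun A B hA hB, add_mem (comb A B m n x h1) (comb' A B m n y h2)⟩
  | inv x _ ih =>
    obtain ⟨A, m, hA, h1⟩ := ih
    exact ⟨A, m, hA, inv_mem h1⟩
  | mul x y _ _ ihx ihy =>
    obtain ⟨A, m, hA, h1⟩ := ihx
    obtain ⟨B, n, hB, h2⟩ := ihy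
    exact ⟨A ∪ B, max m n, hun A B hA hB, mul_mem (comb A B m n x h1) (comb' A B m n y h2)⟩

/-- the number fields -/
theorem le_OmC {C : ℕ → Prop} (F : IntermediateField ℚ ℂ) [NumberField F] (hF : F ≤ OmC C) :
    ∃ (A : Finset ℕ) (n : ℕ), (∀ q ∈ A, C q) ∧ F ≤ mqN A ⊔ Lay (n + 1) := by
  let b := Module.finBasis ℚ F
  have h1 : ∀ i, ∃ (A : Finset ℕ) (n : ℕ), (∀ q ∈ A, C q) ∧
      ((b i : F) : ℂ) ∈ mqN A ⊔ Lay (n + 1) := fun i => mem_OmC (hF (b i).2)
  choose A n hA hb using h1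
  refine ⟨univ.biUnion A, univ.sup n, ?_, ?_⟩
  · intro q hq
    obtain ⟨i, -, hi⟩ := mem_biUnion.1 hq
    exact hA i q hi
  · intro x hx
    have h2 : ∀ i, ((b i : F) : ℂ) ∈ mqN (univ.biUnion A) ⊔ Lay (univ.sup n + 1) := by
      intro i
      exact sup_le_sup (mqN_mono (subset_biUnion_of_mem A (mem_univ i)))
        (Lay_mono (Nat.succ_le_succ (le_sup (f := n) (mem_univ i)))) (hb i)
    have h3 := b.sum_repr (⟨x, hx⟩ : F)
    have h4 : x = ∑ i, (b.repr (⟨x, hx⟩ : F) i) • ((b i : F) : ℂ) := by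
      have h5 := congrArg (fun y : F => (y : ℂ)) h3
      simp only [IntermediateField.coe_sum, IntermediateField.coe_smul] at h5
      exact h5.symm
    rw [h4]
    exact sum_mem fun i _ => IntermediateField.smul_mem _ (h2 i)

/-- the admissible primes -/
def Adm (p : ℕ) : Prop :=
  p.Prime ∧ p % 4 = 1 ∧ (Ine p ∨ p % 9 = 2 ∨ p % 9 = 4 ∨ p % 9 = 5 ∨ p % 9 = 7)

/-- **all the characters of order greater than two** -/
theorem omega_psi (F : IntermediateField ℚ ℂ) [NumberField F] (hF : F ≤ OmC Adm) :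
    ∃ R : Prop, Con F R := by
  obtain ⟨A, n, hA, hFA⟩ := le_OmC F hF
  obtain ⟨hfd, hodd⟩ := Lay_odd n
  have hnf : NumberField (Lay (n + 1)) := { to_charZero := inferInstance, to_finiteDimensional := hfd }
  have hz : NeZero (3 ^ (n + 1)) := ⟨by positivity⟩
  refine ⟨_, mainQ Pool.Agent.W2helper41.Y.parts Pool.Agent.W2helper41.X.parts (3 ^ (n + 1))
    (Nat.prime_three.isPrimePow.pow (Nat.succ_ne_zero n)) (Nat.Coprime.pow_left _ (by norm_num))
    (Lay (n + 1)) (Lay_le (n + 1)) hodd (Or.inl (dvd_pow_self 3 (Nat.succ_ne_zero n)))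
    (A.map (Nat.castEmbedding (R := ℤ))) ?_ ?_ F ?_⟩
  · intro d hd
    obtain ⟨k, hk, rfl⟩ := mem_map.1 hd
    exact Int.natCast_pos.2 (hA k hk).1.pos
  · intro d hd
    obtain ⟨k, hk, rfl⟩ := mem_map.1 hd
    obtain ⟨h1, h2, h3⟩ := hA k hk
    refine ⟨Int.squarefree_natCast.2 h1.squarefree, ?_, ?_⟩
    · show ((k : ℕ) : ℤ) % 4 = 1
      omega
    · intro p hp hpk
      have hpk' : p ∣ k := Int.natCast_dvd_natCast.1 hpk
      have hpe : p = k := (Nat.prime_dvd_prime_iff_eq hp h1).1 hpk'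
      subst hpe
      refine ⟨?_, ?_, h2, ?_⟩
      · intro h14
        have h5 : p ∣ 2 * 7 := h14
        rcases (Nat.Prime.dvd_mul hp).1 h5 with h6 | h6
        · have := (Nat.prime_dvd_prime_iff_eq hp Nat.prime_two).1 h6
          omega
        · have := (Nat.prime_dvd_prime_iff_eq hp (by norm_num)).1 h6
          omega
      · intro h5
        have h6 := (Nat.prime_dvd_prime_iff_eq hp Nat.prime_three).1 (hp.dvd_of_dvd_pow h5)
        omega
      · rcases h3 with h3 | h3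
        · exact Or.inl h3
        · exact Or.inr (Pool.Agent.W2helper41.B.layer_inert n (Lay (n + 1)) (Lay_le (n + 1)) hodd hp
            h3)
  · rw [← Pool.Agent.W2helper41.Y.mq_nat]
    exact hFA

/-- **all the characters** -/
theorem omega_all {T P : Finset ℕ} (hT : ∀ q ∈ T, Ine q) (hP : ∀ p ∈ P, Spl p)
    (hc : P.card ≤ 2) (hdet : (mat P (∏ q ∈ T, q)).det ≠ 0)
    (h9 : ∀ p ∈ P, p % 9 = 2 ∨ p % 9 = 4 ∨ p % 9 = 5 ∨ p % 9 = 7)
    (F : IntermediateField ℚ ℂ) [NumberField F] (hF : F ≤ Om ((∏ q ∈ T, q) * ∏ p ∈ P, p) P) :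
    ∃ R : Prop, R ∧ Con F R := by
  obtain ⟨A, n, hA, hFA⟩ := le_Om F hF
  obtain ⟨hfd, hodd⟩ := Lay_odd n
  have hnf : NumberField (Lay (n + 1)) := { to_charZero := inferInstance, to_finiteDimensional := hfd }
  have hz : NeZero (3 ^ (n + 1)) := ⟨by positivity⟩
  obtain ⟨D, hD⟩ : ∃ D, D = (∏ q ∈ T, q) * ∏ p ∈ P, p := ⟨_, rfl⟩
  have hDr : Reg D := ⟨T, P, hT, hP, hc, hD, hdet⟩
  have hany := reg_any hT hP hc hdet A hA
  rw [← hD] at hany hFA
  have hkr : ∀ k ∈ insert D A, Reg k := by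
    intro k hk
    rcases mem_insert.1 hk with rfl | hk
    · exact hDr
    · have h1 := reg_inert (A := {k}) fun q hq => by
        rw [mem_singleton.1 hq]
        exact (hA k hk).1
      rwa [prod_singleton] at h1
  refine ⟨_, Pool.Agent.W2helper41.Y.regz_of hany, mainQ Pool.Agent.W2helper41.Y.parts
    Pool.Agent.W2helper41.X.parts (3 ^ (n + 1))
    (Nat.prime_three.isPrimePow.pow (Nat.succ_ne_zero n)) (Nat.Coprime.pow_left _ (by norm_num))
    (Lay (n + 1)) (Lay_le (n + 1)) hodd (Or.inl (dvd_pow_self 3 (Nat.succ_ne_zero n)))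
    ((insert D A).map (Nat.castEmbedding (R := ℤ))) ?_ ?_ F ?_⟩
  · intro d hd
    obtain ⟨k, hk, rfl⟩ := mem_map.1 hd
    exact Int.natCast_pos.2 (Nat.pos_of_ne_zero (hkr k hk).sqf.ne_zero)
  · intro d hd
    obtain ⟨k, hk, rfl⟩ := mem_map.1 hd
    have hkr' := hkr k hk
    refine ⟨Int.squarefree_natCast.2 hkr'.sqf, ?_, ?_⟩
    · have h4 := hkr'.four
      show ((k : ℕ) : ℤ) % 4 = 1
      omega
    · intro p hp hpk
      have hpk' : p ∣ k := Int.natCast_dvd_natCast.1 hpk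
      have hpt : Ine p ∨ p ∈ P := by
        rcases mem_insert.1 hk with h | h
        · rw [h, hD, hp.dvd_mul] at hpk'
          rcases hpk' with h1 | h1
          · exact Or.inl (hT p (Y687.dvd_prod_primes (fun q hq => (hT q hq).1) hp h1))
          · exact Or.inr (Y687.dvd_prod_primes (fun q hq => (hP q hq).1) hp h1)
        · have h1 := (Nat.prime_dvd_prime_iff_eq hp (hA k h).1.1).1 hpk'
          rw [h1]
          exact Or.inl (hA k h).1
      refine ⟨hkr'.not_dvd hp hpk', ?_, hkr'.primes hp hpk', ?_⟩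
      · intro h3
        have h4 := (Nat.prime_dvd_prime_iff_eq hp Nat.prime_three).1 (hp.dvd_of_dvd_pow h3)
        rcases hpt with h5 | h5
        · have := h5.2.1
          omega
        · have := (hP p h5).2.1
          omega
      · rcases hpt with h5 | h5
        · exact Or.inl h5
        · exact Or.inr (Pool.Agent.W2helper41.B.layer_inert n (Lay (n + 1)) (Lay_le (n + 1)) hodd hp
            (h9 p h5))
  · rw [← Pool.Agent.W2helper41.Y.mq_nat]
    exact hFA

end Pool.Agent.W2helper41.Q
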